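import Pool.Agent.Run7.h400.GK.Bern
import Pool.Agent.Run7.h400.GK.PartA

/-!
# MP_a90b0f_nt, Q1: Gekeler's converse of the Okada-Goss theorem is true

`q` is the number of elements of the finite field `Fq` of characteristic `p`, `A = Fq[T]`,
`K = Fq(T)`, `w ∈ A` is monic irreducible of degree `d`, `F = K(lm)` with `lm ≠ 0` a `w`-torsion
point of the Carlitz module (the `w`-th Carlitz cyclotomic field), `O_F` the integral closure of `A`
in `F`, `C` the `p`-primary part of the class group of `O_F`, and `W` the ring of Witt vectors of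
`A / w`. If `0 < k < q^d - 1`, `(q - 1) ∣ k` and `w` divides the Bernoulli-Carlitz number `B_(k')`
for every `k'` with `0 < k' < q^d - 1` and `k' ≡ p^m k mod q^d - 1` for some `m ≥ 0`, then there is a
nonzero element of `W ⊗ C` on which the automorphism `lm ↦ C_a(lm)` acts as the `k`-th power of the
Teichmueller lift of `a`.
-/

set_option autoImplicit false

namespace Pool.Agent.Results.MP_a90b0f_nt.GekelerConverse

open Polynomial TensorProduct nonZeroDivisors

/-! ### Bernoulli-Carlitz numbers -/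

/-- `D_i = ∏_(j < i) (T^(q^i) - T^(q^j))` in `K = Fq(T)`. -/
noncomputable def carlitzD (Fq : Type) [Field Fq] (q i : ℕ) : RatFunc Fq :=
  ∏ j ∈ Finset.range i, ((RatFunc.X : RatFunc Fq) ^ (q ^ i) - RatFunc.X ^ (q ^ j))

/-- The Carlitz factorial `Π(n) = ∏ D_i^(n_i)`, where `n_i = ⌊n / q^i⌋ mod q` is the `i`-th digit of `n`
in base `q` (it is zero for `i > n`). -/
noncomputable def carlitzFactorial (Fq : Type) [Field Fq] (q n : ℕ) : RatFunc Fq :=
  ∏ i ∈ Finset.range (n + 1), carlitzD Fq q i ^ (n / q ^ i % q)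

/-- The Carlitz exponential `e(z) = ∑ z^(q^i) / D_i` as a power series over `K`. -/
noncomputable def carlitzExp (Fq : Type) [Field Fq] (q : ℕ) : PowerSeries (RatFunc Fq) :=
  PowerSeries.mk fun m => ∑ i ∈ Finset.range (m + 1), if q ^ i = m then (carlitzD Fq q i)⁻¹ else 0

/-- `B` is the sequence of the Bernoulli-Carlitz numbers: `z / e(z) = ∑ (B_n / Π(n)) z^n`. -/
def IsBernoulliCarlitz (Fq : Type) [Field Fq] (q : ℕ) (B : ℕ → RatFunc Fq) : Prop :=
  (PowerSeries.mk fun n => B n / carlitzFactorial Fq q n) * carlitzExp Fq q = PowerSeries.X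

/-- `w` divides `b ∈ K`: `b = w a / c` with `a, c` in `Fq[T]` and `c` not divisible by `w`. -/
def PrimeDvd {Fq : Type} [Field Fq] (w : Fq[X]) (b : RatFunc Fq) : Prop :=
  ∃ a c : Fq[X], ¬ w ∣ c ∧
    b * algebraMap Fq[X] (RatFunc Fq) c = algebraMap Fq[X] (RatFunc Fq) (w * a)

/-! ### The `w`-th Carlitz cyclotomic field -/

/-- The Carlitz module on a field `F` over `Fq[T]`: `C_a(x) = ∑ c_i C_T^i(x)` for `a = ∑ c_i T^i`,
where `C_T(x) = T x + x^q`. -/
noncomputable def carlitz {Fq F : Type} [Field Fq] [Field F] [Algebra Fq[X] F] (q : ℕ) (a : Fq[X])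
    (x : F) : F :=
  a.sum fun i c => algebraMap Fq[X] F (C c) *
    (fun y : F => algebraMap Fq[X] F X * y + y ^ q)^[i] x

/-- `F = K(lm)`, where `lm ≠ 0` and `C_w(lm) = 0`: `F` is the `w`-th Carlitz cyclotomic field. -/
def IsCyclotomic {Fq F : Type} [Field Fq] [Field F] [Algebra Fq[X] F] [Algebra (RatFunc Fq) F]
    (q : ℕ) (w : Fq[X]) (lm : F) : Prop :=
  lm ≠ 0 ∧ carlitz q w lm = 0 ∧ IntermediateField.adjoin (RatFunc Fq) {lm} = ⊤

/-- The ring of integers `O_F`: the integral closure of `Fq[T]` in `F`. -/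
noncomputable abbrev ringOfIntegers (Fq F : Type) [Field Fq] [Field F] [Algebra Fq[X] F] :
    Subalgebra Fq[X] F :=
  integralClosure Fq[X] F

/-- The restriction to `O_F` of an automorphism of `F` over `K`. -/
noncomputable def restr {Fq F : Type} [Field Fq] [Field F] [Algebra Fq[X] F]
    [Algebra (RatFunc Fq) F] [IsScalarTower Fq[X] (RatFunc Fq) F] (σ : F ≃ₐ[RatFunc Fq] F) :
    ringOfIntegers Fq F →+* ringOfIntegers Fq F :=
  ((σ.restrictScalars Fq[X]).mapIntegralClosure :
    ringOfIntegers Fq F ≃ₐ[Fq[X]] ringOfIntegers Fq F).toAlgHom.toRingHom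

/-! ### The components of the class group -/

/-- The `p`-primary part `C` of the ideal class group of a domain `O`. -/
def ClassP (p : ℕ) (O : Type) [CommRing O] [IsDomain O] : Type :=
  CommGroup.primaryComponent (ClassGroup O) p

/-- The group structure of `C`, as a subgroup of the ideal class group. -/
noncomputable instance instCommGroupClassP (p : ℕ) (O : Type) [CommRing O] [IsDomain O] :
    CommGroup (ClassP p O) :=
  (CommGroup.primaryComponent (ClassGroup O) p).toCommGroup

/-- The inclusion of `C` in the ideal class group. -/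
noncomputable def incl (p : ℕ) (O : Type) [CommRing O] [IsDomain O] : ClassP p O →* ClassGroup O :=
  (CommGroup.primaryComponent (ClassGroup O) p).subtype

/-- The endomorphism `φ` of `C` is the one induced by the endomorphism `s` of `O`: it maps the class
of `I` to the class of `s(I)`. -/
def Induced {O : Type} [CommRing O] [IsDedekindDomain O] (p : ℕ) (s : O →+* O)
    (φ : ClassP p O →* ClassP p O) : Prop :=
  ∀ (c : ClassP p O) (I J : (Ideal O)⁰), incl p O c = ClassGroup.mk0 I →
    (J : Ideal O) = (I : Ideal O).map s → incl p O (φ c) = ClassGroup.mk0 J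

/-- `x ∈ W ⊗ C` satisfies `φ x = c x`, where the endomorphism `φ` of the commutative group `C` acts
on the second factor and `c ∈ W` multiplies the first. -/
def Eigen {W C : Type} [CommRing W] [CommGroup C] (φ : C →* C) (c : W) (x : W ⊗[ℤ] Additive C) :
    Prop :=
  LinearMap.lTensor W (MonoidHom.toAdditive φ).toIntLinearMap x = c • x

/-- Let `G` act on the Dedekind domain `O` by `s`, let `W` be the ring of Witt vectors of `E`, let
`χ g e` express that `e ∈ E` is the value at `g ∈ G` of a character, and let `C` be the `p`-primary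
part of the class group of `O`. Then `W ⊗ C` has an element `x ≠ 0` such that each `g` maps `x`
to `[e]^k x`, where `e` is the value at `g` and `[e]` is its Teichmueller lift. -/
def ComponentNeZero {O G E : Type} [CommRing O] [IsDedekindDomain O] [CommRing E] (p : ℕ)
    [Fact p.Prime] (s : G → (O →+* O)) (χ : G → E → Prop) (k : ℕ) : Prop :=
  ∃ ρ : G → (ClassP p O →* ClassP p O), (∀ g, Induced p (s g) (ρ g)) ∧
    ∃ x : (WittVector p E) ⊗[ℤ] (Additive (ClassP p O)), x ≠ 0 ∧
      ∀ g e, χ g e → Eigen (ρ g) (WittVector.teichmuller p e ^ k) x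

/-- **Gekeler's question, affirmative answer.** The conclusion says that the component of `W ⊗ C` on
which `(A/w)^*` acts through the `k`-th power of the Teichmueller character is not zero, where the
automorphism `σ` with `σ(lm) = C_a(lm)` corresponds to the class of `a`. -/
theorem result
    (p : ℕ) [Fact p.Prime] (Fq : Type) [Field Fq] [Fintype Fq] [CharP Fq p]
    (q : ℕ) (hq : q = Fintype.card Fq)
    (B : ℕ → RatFunc Fq) (hB : IsBernoulliCarlitz Fq q B)
    (w : Fq[X]) (hirr : Irreducible w) (hw : w.Monic) (d : ℕ) (hd : w.natDegree = d)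
    (F : Type) [Field F] [Algebra Fq[X] F] [Algebra (RatFunc Fq) F]
    [IsScalarTower Fq[X] (RatFunc Fq) F] (lm : F) (hF : IsCyclotomic q w lm)
    (k : ℕ) (hk0 : 0 < k) (hk1 : k < q ^ d - 1) (hk2 : (q - 1) ∣ k)
    (hdvd : ∀ k', 0 < k' → k' < q ^ d - 1 → (∃ m, k' ≡ p ^ m * k [MOD q ^ d - 1]) →
      PrimeDvd w (B k')) :
    ∃ _hD : IsDedekindDomain (ringOfIntegers Fq F),
      ComponentNeZero (O := ringOfIntegers Fq F) (G := F ≃ₐ[RatFunc Fq] F) (E := AdjoinRoot w) p restr
        (fun σ e => ∃ a : Fq[X], σ lm = carlitz q a lm ∧ e = AdjoinRoot.mk w a) k := by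
  haveI : Fact (Irreducible w) := ⟨hirr⟩
  obtain ⟨hlm, htor, hgen⟩ := hF
  have hq2 : 2 ≤ q := by
    rw [hq]
    exact Fintype.one_lt_card
  have hBC : ∀ n, B n = Run7.h400.GK.BC Fq q n := Run7.h400.GK.eq_BC Fq hq2 B hB
  have h := Run7.h400.GK.main p Fq F w q d k lm hq hw hd hlm htor hgen
    hk0 hk1 hk2 (by
      intro k' h0 h1 h2
      obtain ⟨a, b, h3, h4⟩ := hdvd k' h0 h1 h2
      exact ⟨a, b, h3, by rw [← hBC]; exact h4⟩)
  obtain ⟨hD, ρ, h1, x, hx, h2⟩ := h
  refine ⟨hD, ρ, ?_, x, hx, ?_⟩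
  · rintro σ ⟨c, hc⟩ I J hI hJ
    have hI' : c = ClassGroup.mk0 I := hI
    subst hI'
    exact h1 σ I J hc hJ
  rintro σ e ⟨a, ha, rfl⟩
  have h3 := h2 σ a ha
  rw [AdjoinRoot.aeval_eq] at h3
  exact h3

end Pool.Agent.Results.MP_a90b0f_nt.GekelerConverse
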